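import Pool.Agent.R462.HC.Main

/-!
The explicit form of the criterion, at the parabolic scale.
-/

set_option autoImplicit false

open MeasureTheory Set Filter Topology
open scoped InnerProductSpace ENNReal ContDiff

namespace Pool.Agent.R462.HC

open H772R2.NS.Pub Pool.Agent.W795.TQ
open Pool.Agent.W795.ES (stretch outer)

theorem tame_strain {Ω : Set R3} {ν κ B l c β : ℝ} (hκ : 0 ≤ κ) (hB : 0 ≤ B)
    (hl : 0 < l) (hc : 4 * κ + l / 2 ≤ c) (hβ : B ≤ β) {U : L2 Ω R3} {G : L2 Ω Mat}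
    (hU : (U, G) ∈ H1graph Ω) (hs : SlowStrain (κ * ν) B G) : Tame ν c β U := by
  obtain ⟨y, hy⟩ := hs
  refine ⟨U, G, 0, fun x => (4 * ‖x - y‖ ^ 2)⁻¹, fun x => (4 * ‖x - y‖ ^ 2)⁻¹, 4 * κ, 0, l, B, 0,
    hU, contDiff_const, hardy_formBdd Ω y, hardy_formBdd Ω y, by positivity, hl, hB, le_rfl,
    by simpa using hc, by simpa using hβ, ?_, ?_⟩
  · filter_upwards [hy] with x hx ξ
    have h1 := hx ξ
    have h2 : fderiv ℝ (0 : R3 → R3) x ξ = 0 := by simp
    rw [h2, inner_zero_left, add_zero]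
    have h3 : 4 * κ * ν * (4 * ‖x - y‖ ^ 2)⁻¹ = κ * ν / ‖x - y‖ ^ 2 := by
      rw [mul_inv]
      ring
    rw [h3]
    linarith
  · refine Eventually.of_forall fun x => ?_
    simp

theorem young_pt {k μ a B : ℝ} (hk : 0 ≤ k) (hμ : 0 < μ) :
    (k * a + B) ^ 2 ≤ k * (k + μ) * a ^ 2 + (k + μ) / μ * B ^ 2 := by
  have h : k * (k + μ) * a ^ 2 + (k + μ) / μ * B ^ 2 - (k * a + B) ^ 2
      = k / μ * (μ * a - B) ^ 2 := by
    field_simp
    ring
  have h2 : 0 ≤ k / μ * (μ * a - B) ^ 2 := by positivity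
  linarith

theorem zero_mem_graph (Ω : Set R3) : ((0 : L2 Ω R3), (0 : L2 Ω Mat)) ∈ H1graph Ω :=
  mem_pub.mp (H772R2.NS.graphW (show Set H772R2.NS.E3 from Ω)).zero_mem

theorem zero_fn (Ω : Set R3) (E : Type) [NormedAddCommGroup E] :
    ∀ᵐ x ∂((volume : Measure R3).restrict Ω), (0 : L2 Ω E).fn x = 0 := by
  have h := Lp.coeFn_zero E 2 ((volume : Measure R3).restrict Ω)
  filter_upwards [h] with x hx
  exact hx

theorem tame_velocity {Ω : Set R3} {ν k B μ c β : ℝ} (hν : 0 < ν) (hk : 0 ≤ k) (hB : 0 ≤ B)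
    (hμ : 0 < μ) (hc : 2 * k + μ ≤ c) (hβ : B ^ 2 / (4 * μ * ν) ≤ β) {U : L2 Ω R3}
    (hs : SlowVelocity (k * ν) B U) : Tame ν c β U := by
  obtain ⟨y, a, A, hA, hy⟩ := hs
  have hl : 0 < 2 * k + 2 * μ := by positivity
  refine ⟨0, 0, fun x => a + A x, fun x => (4 * ‖x - y‖ ^ 2)⁻¹, fun x => (4 * ‖x - y‖ ^ 2)⁻¹, 0,
    Real.sqrt (2 * k * (2 * k + 2 * μ)), 2 * k + 2 * μ, 0, B ^ 2 / (4 * μ * ν),
    zero_mem_graph Ω, contDiff_const.add A.contDiff, hardy_formBdd Ω y, hardy_formBdd Ω y,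
    le_rfl, hl, le_rfl, by positivity, ?_, by simpa using hβ, ?_, ?_⟩
  · rw [Real.sq_sqrt (by positivity)]
    refine le_trans (le_of_eq ?_) hc
    field_simp
    ring
  · filter_upwards [zero_fn Ω Mat] with x hx ξ
    rw [hx, inner_zero_left]
    have h2 : fderiv ℝ (fun x => a + A x) x = A := by
      rw [fderiv_const_add]
      exact A.fderiv
    rw [h2, hA]
    simp
  · filter_upwards [hy, zero_fn Ω R3] with x hx h0
    rw [h0, sub_zero, Real.sq_sqrt (by positivity)]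
    have h1 : ‖U.fn x - (a + A x)‖ ^ 2 ≤ (k * ν / ‖x - y‖ + B) ^ 2 := by gcongr
    refine h1.trans ?_
    have h2 := young_pt (a := ν / ‖x - y‖) (B := B) hk hμ
    have e1 : k * ν / ‖x - y‖ = k * (ν / ‖x - y‖) := by ring
    rw [e1]
    refine h2.trans (le_of_eq ?_)
    have e2 : 2 * (2 * k + 2 * μ) * ν * (B ^ 2 / (4 * μ * ν)) = (k + μ) / μ * B ^ 2 := by
      field_simp
      ring
    rw [e2, mul_inv, div_pow, div_eq_mul_inv (ν ^ 2)]
    ring

/-- the argument with the logarithm -/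
theorem log_contra {τ : ℝ} (hτ : 0 < τ) {P : ℝ → ℝ → Prop}
    (H : ∀ s ∈ Ico 0 τ, ∃ M : ℝ, ∀ β : ℝ → ℝ,
        (∀ t, 0 ≤ β t) → (∀ t ∈ Ioo s τ, IntervalIntegrable β volume s t) →
        (∀ᵐ t ∂(volume.restrict (Ioo s τ)), P (β t) t) →
        ∀ t0 < τ, ∃ t ∈ Ioo t0 τ, s < t ∧
          3 / 4 * Real.log (1 / (τ - t)) - M ≤ ∫ r in s..t, β r)
    {γ t1 : ℝ} (hγ0 : 0 ≤ γ) (hγ : γ < 3 / 4) (ht1 : t1 < τ)
    (hyp : ∀ᵐ t ∂(volume.restrict (Ioo t1 τ)), P (γ / (τ - t)) t) : False := by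
  set s := max t1 0 with hs
  have hsτ : s < τ := max_lt ht1 hτ
  have hs0 : 0 ≤ s := le_max_right _ _
  obtain ⟨M, hM⟩ := H s ⟨hs0, hsτ⟩
  set β : ℝ → ℝ := fun t => γ / |τ - t| with hβ
  have hβc : ∀ t ∈ Ioo s τ, ContinuousOn β (uIcc s t) := by
    intro t ht
    rw [uIcc_of_le ht.1.le]
    refine continuousOn_const.div (continuous_const.sub continuous_id).abs.continuousOn
      fun r hr => ?_
    have : 0 < τ - r := by linarith [hr.2, ht.2]
    exact abs_ne_zero.2 this.ne'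
  have h1 := hM β (fun t => by simp only [hβ]; positivity)
    (fun t ht => (hβc t ht).intervalIntegrable) (by
      have h2 : ∀ᵐ t ∂(volume.restrict (Ioo s τ)), P (γ / (τ - t)) t :=
        ae_mono (Measure.restrict_mono (Ioo_subset_Ioo_left (le_max_left _ _)) le_rfl) hyp
      filter_upwards [h2, ae_restrict_mem measurableSet_Ioo] with t ht htI
      have hp : 0 < τ - t := by linarith [htI.2]
      simp only [hβ]
      rw [abs_of_pos hp]
      exact ht)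
  -- the integral of `β`
  have hint : ∀ t ∈ Ioo s τ, ∫ r in s..t, β r
      = γ * (Real.log (1 / (τ - t)) - Real.log (1 / (τ - s))) := by
    intro t ht
    have hder : ∀ r ∈ uIcc s t, HasDerivAt (fun r => γ * Real.log (1 / (τ - r))) (β r) r := by
      intro r hr
      rw [uIcc_of_le ht.1.le] at hr
      have hp : 0 < τ - r := by linarith [hr.2, ht.2]
      have e1 : (fun r => γ * Real.log (1 / (τ - r))) = fun r => γ * -Real.log (τ - r) := by
        funext r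
        rw [one_div, Real.log_inv]
      rw [e1]
      refine (((((hasDerivAt_id r).const_sub τ).log hp.ne').neg).const_mul γ).congr_deriv ?_
      simp only [hβ]
      rw [abs_of_pos hp]
      simp only [id]
      ring
    rw [intervalIntegral.integral_eq_sub_of_hasDerivAt hder (hβc t ht).intervalIntegrable]
    ring
  -- a time at which the logarithm is large
  set A := (|M| + γ * |Real.log (1 / (τ - s))| + 1) / (3 / 4 - γ) with hA
  have hgp : 0 < 3 / 4 - γ := by linarith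
  obtain ⟨t, ht, hst, hle⟩ := h1 (τ - Real.exp (-A)) (by linarith [Real.exp_pos (-A)])
  rw [hint t ⟨hst, ht.2⟩] at hle
  have hp : 0 < τ - t := by linarith [ht.2]
  have h3 : A < Real.log (1 / (τ - t)) := by
    rw [one_div, Real.log_inv, lt_neg, Real.log_lt_iff_lt_exp hp]
    linarith [ht.1]
  have h4 : (3 / 4 - γ) * A = |M| + γ * |Real.log (1 / (τ - s))| + 1 := by
    rw [hA, mul_comm, div_mul_cancel₀ _ hgp.ne']
  have h5 : (3 / 4 - γ) * A < (3 / 4 - γ) * Real.log (1 / (τ - t)) :=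
    mul_lt_mul_of_pos_left h3 hgp
  have h6 := le_abs_self M
  have h7 : -(γ * Real.log (1 / (τ - s))) ≤ γ * |Real.log (1 / (τ - s))| := by
    rw [← mul_neg]
    exact mul_le_mul_of_nonneg_left (neg_le_abs _) hγ0
  nlinarith

theorem explicit {Ω : Set R3} {ν τ : ℝ} (hν : 0 < ν) (hτ : 0 < τ)
    {u : ℝ → L2 Ω R3} {G : ℝ → L2 Ω Mat}
    (hG : ∀ᵐ t ∂(volume.restrict (Ioo 0 τ)), (u t, G t) ∈ H1graph Ω)
    (H : ∀ c : ℝ, 0 ≤ c → c < 1 → ∀ s ∈ Ico 0 τ, ∃ M : ℝ, ∀ β : ℝ → ℝ,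
        (∀ t, 0 ≤ β t) → (∀ t ∈ Ioo s τ, IntervalIntegrable β volume s t) →
        (∀ᵐ t ∂(volume.restrict (Ioo s τ)), Tame ν c (β t) (u t)) →
        ∀ t0 < τ, ∃ t ∈ Ioo t0 τ, s < t ∧
          3 / 4 * Real.log (1 / (τ - t)) - M ≤ ∫ r in s..t, β r)
    {κ b k K t1 : ℝ} (hκ : 0 ≤ κ) (hκ2 : κ < 1 / 4) (hb : 0 ≤ b) (hb2 : b < 3 / 4)
    (hk : 0 ≤ k) (hK : 0 ≤ K) (hK2 : K ^ 2 < 3 * (1 - 2 * k)) (ht1 : t1 < τ)
    (hyp : ∀ᵐ t ∂(volume.restrict (Ioo t1 τ)),
      SlowStrain (κ * ν) (b / (τ - t)) (G t) ∨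
      SlowVelocity (k * ν) (K * Real.sqrt (ν / (τ - t))) (u t)) : False := by
  have hk2 : 2 * k < 1 := by nlinarith [sq_nonneg K]
  set μ := (K ^ 2 / 3 + (1 - 2 * k)) / 2 with hμ
  have hμ0 : 0 < μ := by
    have := sq_nonneg K
    rw [hμ]; linarith
  have hμ1 : K ^ 2 / 3 < μ := by rw [hμ]; linarith
  have hμ2 : μ < 1 - 2 * k := by rw [hμ]; linarith
  set c := max ((1 + 4 * κ) / 2) (2 * k + μ) with hc
  have hc0 : 0 ≤ c := le_max_of_le_left (by linarith)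
  have hc1 : c < 1 := max_lt (by linarith) (by linarith)
  set γ := max b (K ^ 2 / (4 * μ)) with hγ
  have hγ0 : 0 ≤ γ := le_max_of_le_left hb
  have hγ1 : γ < 3 / 4 := by
    refine max_lt hb2 ?_
    rw [div_lt_iff₀ (by positivity)]
    linarith
  have t2 : max t1 0 < τ := max_lt ht1 hτ
  refine log_contra hτ (P := fun β t => Tame ν c β (u t)) (H c hc0 hc1) hγ0 hγ1 t2 ?_
  have h2 : ∀ᵐ t ∂(volume.restrict (Ioo (max t1 0) τ)),
      SlowStrain (κ * ν) (b / (τ - t)) (G t) ∨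
      SlowVelocity (k * ν) (K * Real.sqrt (ν / (τ - t))) (u t) :=
    ae_mono (Measure.restrict_mono (Ioo_subset_Ioo_left (le_max_left _ _)) le_rfl) hyp
  have h3 : ∀ᵐ t ∂(volume.restrict (Ioo (max t1 0) τ)), (u t, G t) ∈ H1graph Ω :=
    ae_mono (Measure.restrict_mono (Ioo_subset_Ioo_left (le_max_right _ _)) le_rfl) hG
  filter_upwards [h2, h3, ae_restrict_mem measurableSet_Ioo] with t h4 h5 htI
  have hp : 0 < τ - t := by linarith [htI.2]
  rcases h4 with h4 | h4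
  · exact tame_strain (l := 1 - 4 * κ) hκ (by positivity) (by linarith)
      (le_trans (le_of_eq (by ring)) (le_max_left _ _))
      (div_le_div_of_nonneg_right (le_max_left _ _) hp.le) h5 h4
  · refine tame_velocity hν hk (by positivity) hμ0 (le_max_right _ _) ?_ h4
    rw [mul_pow, Real.sq_sqrt (by positivity)]
    have e1 : K ^ 2 * (ν / (τ - t)) / (4 * μ * ν) = K ^ 2 / (4 * μ) / (τ - t) := by
      field_simp
    rw [e1]
    exact div_le_div_of_nonneg_right (le_max_right _ _) hp.le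

end Pool.Agent.R462.HC
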