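import Pool.Agent.W795.ES.PubDef

/-!
Public definitions: form bounded potentials, and velocity fields which differ little from a field
with slow compression.
-/

set_option autoImplicit false

open MeasureTheory Set
open scoped InnerProductSpace ContDiff

namespace Pool.Agent.R462.HC

open H772R2.NS.Pub
open Pool.Agent.W795.ES (outer)

/-- The potential `W ≥ 0` is form bounded in `Ω`, with the bound one: `∫_Ω W φ² ≤ ∫ |∇φ|²` for all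
smooth real functions `φ` with compact support in `Ω`. -/
structure FormBdd (Ω : Set R3) (W : R3 → ℝ) : Prop where
  meas : AEMeasurable W (volume.restrict Ω)
  nonneg : ∀ x, 0 ≤ W x
  bound : ∀ φ : R3 → ℝ, ContDiff ℝ ∞ φ → HasCompactSupport φ → tsupport φ ⊆ Ω →
    ∫⁻ x in Ω, ENNReal.ofReal (W x * φ x ^ 2) ≤ ENNReal.ofReal (∫ x, ‖fderiv ℝ φ x‖ ^ 2)

/-- The velocity field `u` is `c`-tame with the rate `β` (viscosity `ν`): it is a sum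
`u = (w + ψ) + v` such that
* `w ∈ H¹_{0,σ}(Ω)` with the gradient `z`, and `ψ` is a smooth vector field on `ℝ³`; the
  compression of `w + ψ` is at most `θ₁ ν W₁ + β₁`, that is,
  `-ξ·∇(w + ψ)(x) ξ ≤ (θ₁ ν W₁(x) + β₁) |ξ|²` for almost every `x ∈ Ω` and all `ξ`;
* `|v(x)|² ≤ θ₂² ν² W₂(x) + 2 l ν β₂` for almost every `x ∈ Ω`;
* `W₁`, `W₂` are form bounded in `Ω`, with the bound one, `β₁ + β₂ ≤ β` and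
  `θ₁ + l/2 + θ₂²/(2 l) ≤ c`. -/
def Tame {Ω : Set R3} (ν c β : ℝ) (u : L2 Ω R3) : Prop :=
  ∃ (w : L2 Ω R3) (z : L2 Ω Mat) (ψ : R3 → R3) (W₁ W₂ : R3 → ℝ) (θ₁ θ₂ l β₁ β₂ : ℝ),
    (w, z) ∈ H1graph Ω ∧ ContDiff ℝ ∞ ψ ∧ FormBdd Ω W₁ ∧ FormBdd Ω W₂ ∧
    0 ≤ θ₁ ∧ 0 < l ∧ 0 ≤ β₁ ∧ 0 ≤ β₂ ∧ θ₁ + l / 2 + θ₂ ^ 2 / (2 * l) ≤ c ∧ β₁ + β₂ ≤ β ∧
    (∀ᵐ x ∂(volume.restrict Ω), ∀ ξ : R3,
      -(⟪z.fn x, outer ξ⟫_ℝ + ⟪fderiv ℝ ψ x ξ, ξ⟫_ℝ) ≤ (θ₁ * ν * W₁ x + β₁) * ‖ξ‖ ^ 2) ∧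
    (∀ᵐ x ∂(volume.restrict Ω),
      ‖u.fn x - w.fn x - ψ x‖ ^ 2 ≤ θ₂ ^ 2 * ν ^ 2 * W₂ x + 2 * l * ν * β₂)

/-- The compression is at most `κ / |x - y|² + B`, for some point `y ∈ ℝ³`, that is,
`ξ·G(x) ξ ≥ -(κ / |x - y|² + B) |ξ|²` for almost every `x ∈ Ω` and all `ξ`. -/
def SlowStrain {Ω : Set R3} (κ B : ℝ) (G : L2 Ω Mat) : Prop :=
  ∃ y : R3, ∀ᵐ x ∂(volume.restrict Ω), ∀ ξ : R3,
    -(κ / ‖x - y‖ ^ 2 + B) * ‖ξ‖ ^ 2 ≤ ⟪G.fn x, outer ξ⟫_ℝ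

/-- For some rigid motion `a + A x` (`A` skew symmetric) and some point `y ∈ ℝ³`,
`|u(x) - (a + A x)| ≤ κ / |x - y| + B` for almost every `x ∈ Ω`. -/
def SlowVelocity {Ω : Set R3} (κ B : ℝ) (u : L2 Ω R3) : Prop :=
  ∃ (y a : R3) (A : R3 →L[ℝ] R3), (∀ ξ, ⟪A ξ, ξ⟫_ℝ = 0) ∧
    ∀ᵐ x ∂(volume.restrict Ω), ‖u.fn x - (a + A x)‖ ≤ κ / ‖x - y‖ + B

end Pool.Agent.R462.HC
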