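import Pool.Agent.TH340.FF.Form5
import Pool.Agent.W795.ES.Pub
import Pool.Agent.R462.HC.PubDef

/-!
The form inequality for fields which differ little from a field with slow compression.
-/

set_option autoImplicit false

open MeasureTheory Set Filter Topology
open scoped InnerProductSpace ContDiff ENNReal

namespace Pool.Agent.R462.HC

open H772R2.NS Pool.Agent.TH340.FF

variable {Ω : Set E3}

theorem norm_clm_sq (L : E3 →L[ℝ] ℝ) : ‖L‖ ^ 2 = ∑ j, L (ev j) ^ 2 := by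
  have h := (InnerProductSpace.toDual ℝ E3).norm_map ((InnerProductSpace.toDual ℝ E3).symm L)
  rw [LinearIsometryEquiv.apply_symm_apply] at h
  rw [h, norm_sq_E3]
  refine Finset.sum_congr rfl fun j _ => ?_
  have h2 : ⟪(InnerProductSpace.toDual ℝ E3).symm L, ev j⟫_ℝ = L (ev j) :=
    InnerProductSpace.toDual_symm_apply
  rw [← h2, EuclideanSpace.inner_single_right]
  simp

/-- `∑ᵢⱼ (∂ⱼφᵢ)²` -/
noncomputable def JJ (φ : E3 → E3) (x : E3) : ℝ := ∑ i, ∑ j, jac φ x (i, j) ^ 2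

/-- `∑ᵢ φᵢ²` -/
noncomputable def NN (φ : E3 → E3) (x : E3) : ℝ := ∑ i, φ x i ^ 2

theorem JJ_nonneg (φ : E3 → E3) (x : E3) : 0 ≤ JJ φ x :=
  Finset.sum_nonneg fun _ _ => Finset.sum_nonneg fun _ _ => sq_nonneg _

theorem NN_nonneg (φ : E3 → E3) (x : E3) : 0 ≤ NN φ x :=
  Finset.sum_nonneg fun _ _ => sq_nonneg _

theorem NN_eq (φ : E3 → E3) (x : E3) : NN φ x = ‖φ x‖ ^ 2 := (norm_sq_E3 _).symm

theorem JJ_eq (φ : E3 → E3) (x : E3) : JJ φ x = ‖jac φ x‖ ^ 2 := (norm_sq_M3 _).symm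

theorem JJ_cont {φ : E3 → E3} (h : ContDiff ℝ ∞ φ) : Continuous (JJ φ) :=
  continuous_finsetSum _ fun i _ => continuous_finsetSum _ fun j _ => (cont_jac_coord h i j).pow 2

theorem NN_cont {φ : E3 → E3} (h : ContDiff ℝ ∞ φ) : Continuous (NN φ) :=
  continuous_finsetSum _ fun i _ => (contDiff_coord h i).continuous.pow 2

theorem JJ_int {φ : E3 → E3} (h : IsTest Ω φ) : Integrable (JJ φ) := by
  refine (JJ_cont h.smooth).integrable_of_hasCompactSupport ?_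
  refine (hasCompactSupport_jac h.compact).mono fun x hx h0 => hx ?_
  rw [JJ_eq, h0]
  simp

theorem NN_int {φ : E3 → E3} (h : IsTest Ω φ) : Integrable (NN φ) := by
  refine (NN_cont h.smooth).integrable_of_hasCompactSupport ?_
  refine h.compact.mono fun x hx h0 => hx ?_
  rw [NN_eq, h0]
  simp

/-- the properties of a form bounded potential -/
structure FB (Ω : Set E3) (W : E3 → ℝ) : Prop where
  meas : AEMeasurable W (volume.restrict Ω)
  nonneg : ∀ x, 0 ≤ W x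
  bound : ∀ φ : E3 → ℝ, ContDiff ℝ ∞ φ → HasCompactSupport φ → tsupport φ ⊆ Ω →
    ∫⁻ x in Ω, ENNReal.ofReal (W x * φ x ^ 2) ≤ ENNReal.ofReal (∫ x, ‖fderiv ℝ φ x‖ ^ 2)

theorem FB.of_pub {W : E3 → ℝ}
    (h : FormBdd (show Set H772R2.NS.Pub.R3 from Ω) W) : FB Ω W :=
  ⟨h.meas, h.nonneg, h.bound⟩

theorem form_scalar {W : E3 → ℝ} (hW : FB Ω W) {φ : E3 → E3} (h : IsTest Ω φ) :
    ∫⁻ x in Ω, ENNReal.ofReal (W x * NN φ x) ≤ ENNReal.ofReal (∫ x, JJ φ x) := by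
  have hc : ∀ i, ContDiff ℝ ∞ (fun x => φ x i) := contDiff_coord h.smooth
  have hcs : ∀ i, HasCompactSupport (fun x => φ x i) := hasCompactSupport_coord h.compact
  have hts : ∀ i, tsupport (fun x => φ x i) ⊆ Ω := fun i => by
    refine (closure_mono ?_).trans h.supp
    intro x hx h0
    apply hx
    simp [h0]
  have hJi : ∀ i, ∀ x, ‖fderiv ℝ (fun y => φ y i) x‖ ^ 2 = ∑ j, jac φ x (i, j) ^ 2 := by
    intro i x
    rw [norm_clm_sq]
    refine Finset.sum_congr rfl fun j _ => ?_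
    rw [jac_eq_coord h.smooth]
  have hI : ∀ i, Integrable fun x => ‖fderiv ℝ (fun y => φ y i) x‖ ^ 2 := by
    intro i
    have h1 : Continuous fun x => ‖fderiv ℝ (fun y => φ y i) x‖ ^ 2 :=
      ((hc i).continuous_fderiv (by simp)).norm.pow 2
    refine h1.integrable_of_hasCompactSupport ?_
    exact ((hcs i).fderiv (𝕜 := ℝ)).comp_left (g := fun L : E3 →L[ℝ] ℝ => ‖L‖ ^ 2) (by simp)
  have e1 : ∀ x, ENNReal.ofReal (W x * NN φ x) = ∑ i, ENNReal.ofReal (W x * φ x i ^ 2) := by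
    intro x
    rw [← ENNReal.ofReal_sum_of_nonneg fun i _ => mul_nonneg (hW.nonneg x) (sq_nonneg _),
      ← Finset.mul_sum]
    rfl
  simp_rw [e1]
  have hms : ∀ i : Fin 3, AEMeasurable (fun x => ENNReal.ofReal (W x * φ x i ^ 2))
      (volume.restrict Ω) := fun i =>
    (hW.meas.mul ((hc i).continuous.pow 2).measurable.aemeasurable).ennreal_ofReal
  rw [lintegral_finsetSum' _ fun i _ => hms i]
  have e2 : ∫ x, JJ φ x = ∑ i, ∫ x, ‖fderiv ℝ (fun y => φ y i) x‖ ^ 2 := by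
    rw [← integral_finsetSum _ fun i _ => hI i]
    refine integral_congr_ae (Eventually.of_forall fun x => ?_)
    simp only
    unfold JJ
    exact Finset.sum_congr rfl fun i _ => (hJi i x).symm
  rw [e2, ENNReal.ofReal_sum_of_nonneg fun i _ => integral_nonneg fun x => by positivity]
  exact Finset.sum_le_sum fun i _ => hW.bound _ (hc i) (hcs i) (hts i)

theorem int_le_toReal {α : Type*} [MeasurableSpace α] {μ : Measure α} (f : α → ℝ) :
    ∫ x, f x ∂μ ≤ (∫⁻ x, ENNReal.ofReal (f x) ∂μ).toReal := by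
  by_cases hf : Integrable f μ
  · rw [integral_eq_lintegral_pos_part_sub_lintegral_neg_part hf]
    have : 0 ≤ (∫⁻ x, ENNReal.ofReal (-f x) ∂μ).toReal := ENNReal.toReal_nonneg
    linarith
  · rw [integral_undef hf]
    exact ENNReal.toReal_nonneg

/-- the integral of a function with a pointwise bound by the potential -/
theorem int_le {W : E3 → ℝ} (hW : FB Ω W) {φ : E3 → E3} (h : IsTest Ω φ) {f : E3 → ℝ}
    {A κ β : ℝ} (hA : 0 ≤ A) (hκ : 0 ≤ κ) (hβ : 0 ≤ β)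
    (hf : ∀ᵐ x ∂(volume.restrict Ω), f x ≤ A * JJ φ x + (κ * W x + β) * NN φ x) :
    ∫ x in Ω, f x ≤ (A + κ) * (∫ x, JJ φ x) + β * ∫ x, NN φ x := by
  have hJ0 : 0 ≤ ∫ x, JJ φ x := integral_nonneg (JJ_nonneg φ)
  have hN0 : 0 ≤ ∫ x, NN φ x := integral_nonneg (NN_nonneg φ)
  have e1 : ∫⁻ x in Ω, ENNReal.ofReal (A * JJ φ x) ≤ ENNReal.ofReal (A * ∫ x, JJ φ x) := by
    refine (setLIntegral_le_lintegral _ _).trans ?_
    rw [← ofReal_integral_eq_lintegral_ofReal ((JJ_int h).const_mul A)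
      (Eventually.of_forall fun x => mul_nonneg hA (JJ_nonneg φ x)), integral_const_mul]
  have e3 : ∫⁻ x in Ω, ENNReal.ofReal (β * NN φ x) ≤ ENNReal.ofReal (β * ∫ x, NN φ x) := by
    refine (setLIntegral_le_lintegral _ _).trans ?_
    rw [← ofReal_integral_eq_lintegral_ofReal ((NN_int h).const_mul β)
      (Eventually.of_forall fun x => mul_nonneg hβ (NN_nonneg φ x)), integral_const_mul]
  have e2 : ∫⁻ x in Ω, ENNReal.ofReal (κ * (W x * NN φ x)) ≤ ENNReal.ofReal (κ * ∫ x, JJ φ x) := by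
    simp_rw [ENNReal.ofReal_mul hκ]
    rw [lintegral_const_mul' _ _ ENNReal.ofReal_ne_top]
    gcongr
    exact form_scalar hW h
  have hm1 : Measurable fun x => ENNReal.ofReal (A * JJ φ x) :=
    ((JJ_cont h.smooth).measurable.const_mul A).ennreal_ofReal
  have hm3 : Measurable fun x => ENNReal.ofReal (β * NN φ x) :=
    ((NN_cont h.smooth).measurable.const_mul β).ennreal_ofReal
  have key : ∫⁻ x in Ω, ENNReal.ofReal (f x)
      ≤ ENNReal.ofReal ((A + κ) * (∫ x, JJ φ x) + β * ∫ x, NN φ x) := by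
    calc ∫⁻ x in Ω, ENNReal.ofReal (f x)
        ≤ ∫⁻ x in Ω, (ENNReal.ofReal (A * JJ φ x) + (ENNReal.ofReal (β * NN φ x)
            + ENNReal.ofReal (κ * (W x * NN φ x)))) := by
          refine lintegral_mono_ae ?_
          filter_upwards [hf] with x hx
          rw [← ENNReal.ofReal_add (mul_nonneg hβ (NN_nonneg φ x))
            (mul_nonneg hκ (mul_nonneg (hW.nonneg x) (NN_nonneg φ x))),
            ← ENNReal.ofReal_add (mul_nonneg hA (JJ_nonneg φ x))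
            (add_nonneg (mul_nonneg hβ (NN_nonneg φ x))
              (mul_nonneg hκ (mul_nonneg (hW.nonneg x) (NN_nonneg φ x))))]
          refine ENNReal.ofReal_le_ofReal (hx.trans (le_of_eq ?_))
          ring
      _ = (∫⁻ x in Ω, ENNReal.ofReal (A * JJ φ x)) + ((∫⁻ x in Ω, ENNReal.ofReal (β * NN φ x))
            + ∫⁻ x in Ω, ENNReal.ofReal (κ * (W x * NN φ x))) := by
          rw [lintegral_add_left hm1, lintegral_add_left hm3]
      _ ≤ ENNReal.ofReal (A * ∫ x, JJ φ x) + (ENNReal.ofReal (β * ∫ x, NN φ x)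
            + ENNReal.ofReal (κ * ∫ x, JJ φ x)) := by gcongr
      _ = ENNReal.ofReal ((A + κ) * (∫ x, JJ φ x) + β * ∫ x, NN φ x) := by
          rw [← ENNReal.ofReal_add (by positivity) (by positivity),
            ← ENNReal.ofReal_add (by positivity) (by positivity)]
          congr 1
          ring
  refine (int_le_toReal _).trans ?_
  refine (ENNReal.toReal_mono ENNReal.ofReal_ne_top key).trans (le_of_eq ?_)
  exact ENNReal.toReal_ofReal (by positivity)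

/-- `|(φ·∇)φ| ≤ |∇φ| |φ|` -/
theorem norm_f1 (φ : E3 → E3) (x : E3) : ‖f1 φ x‖ ^ 2 ≤ JJ φ x * NN φ x := by
  rw [norm_sq_E3]
  unfold JJ NN
  rw [Finset.sum_mul]
  refine Finset.sum_le_sum fun i _ => ?_
  have := Finset.sum_mul_sq_le_sq_mul_sq Finset.univ (fun j => jac φ x (i, j)) (fun j => φ x j)
  refine le_trans (le_of_eq ?_) this
  show (∑ j, φ x j * jac φ x (i, j)) ^ 2 = _
  congr 1
  exact Finset.sum_congr rfl fun j _ => mul_comm _ _

/-- the pointwise bound for the rough part -/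
theorem rough_pt {ν l θ W B : ℝ} (hν : 0 < ν) (hl : 0 < l) {v f : E3} {J N : ℝ} (hJ : 0 ≤ J)
    (hN : 0 ≤ N)
    (hf : ‖f‖ ^ 2 ≤ J * N) (hv : ‖v‖ ^ 2 ≤ θ ^ 2 * ν ^ 2 * W + 2 * l * ν * B) :
    ∑ i, v i * f i ≤ l / 2 * ν * J + (θ ^ 2 / (2 * l) * ν * W + B) * N := by
  have h1 : ∑ i, v i * f i ≤ ‖v‖ * ‖f‖ := by
    rw [← inner_E3]
    exact real_inner_le_norm _ _
  refine h1.trans ?_
  have h2 : ‖v‖ * ‖f‖ ≤ l / 2 * ν * J + 1 / (2 * l * ν) * (‖v‖ ^ 2 * N) := by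
    have h3 : (‖v‖ * ‖f‖) ^ 2 ≤ (‖v‖ ^ 2 * N) * J := by
      rw [mul_pow]
      calc ‖v‖ ^ 2 * ‖f‖ ^ 2 ≤ ‖v‖ ^ 2 * (J * N) := by gcongr
        _ = _ := by ring
    have hp : 0 < l * ν := by positivity
    set a := ‖v‖ ^ 2 * N
    have ha : 0 ≤ a := by positivity
    have h4 : (‖v‖ * ‖f‖) ^ 2 ≤ (l / 2 * ν * J + 1 / (2 * l * ν) * a) ^ 2 := by
      refine h3.trans ?_
      have : a * J = 4 * (l / 2 * ν * J) * (1 / (2 * l * ν) * a) := by field_simp; ring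
      rw [this]
      nlinarith [sq_nonneg (l / 2 * ν * J - 1 / (2 * l * ν) * a)]
    exact le_of_sq_le_sq h4 (by positivity)
  refine h2.trans ?_
  have h5 : 1 / (2 * l * ν) * (‖v‖ ^ 2 * N)
      ≤ 1 / (2 * l * ν) * ((θ ^ 2 * ν ^ 2 * W + 2 * l * ν * B) * N) := by gcongr
  refine (add_le_add le_rfl h5).trans (le_of_eq ?_)
  field_simp

theorem int_pair (U : L2V Ω) {a : E3 → E3} (ha : Continuous a) (hc : HasCompactSupport a) :
    Integrable (fun x => ∑ i, U x i * a x i) (volume.restrict Ω) := by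
  have hm : MemLp a 2 ((volume : Measure E3).restrict Ω) :=
    (ha.memLp_of_hasCompactSupport hc).restrict Ω
  refine (L2.integrable_inner (𝕜 := ℝ) (hm.toLp a) U).congr ?_
  filter_upwards [hm.coeFn_toLp] with x hx
  rw [hx, inner_E3]
  exact Finset.sum_congr rfl fun i _ => by ring

theorem ext_int (hΩ : MeasurableSet Ω) (U : L2V Ω) (a : E3 → E3) :
    ∫ x, ∑ i, TH340.FF.ext Ω U x i * a x i = ∫ x in Ω, ∑ i, U x i * a x i := by
  have e1 : (fun x => ∑ i, TH340.FF.ext Ω U x i * a x i)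
      = Ω.indicator fun x => ∑ i, (U : E3 → E3) x i * a x i := by
    funext x
    by_cases hx : x ∈ Ω
    · simp [TH340.FF.ext, indicator_of_mem hx]
    · simp [TH340.FF.ext, indicator_of_notMem hx]
  rw [e1, integral_indicator hΩ]

/-- **The form inequality.** -/
theorem form_tame (hΩ : MeasurableSet Ω) {ν c β : ℝ} (hν : 0 < ν) {U : L2V Ω} {G : L2M Ω}
    (hU : (U, G) ∈ graphW Ω) {w : L2V Ω} {z : L2M Ω} (hw : (w, z) ∈ graphW Ω) {ψ : E3 → E3}
    (hψ : ContDiff ℝ ∞ ψ) {W₁ W₂ : E3 → ℝ} (hW₁ : FB Ω W₁) (hW₂ : FB Ω W₂)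
    {θ₁ θ₂ l β₁ β₂ : ℝ} (hθ₁ : 0 ≤ θ₁) (hl : 0 < l) (hβ₁ : 0 ≤ β₁) (hβ₂ : 0 ≤ β₂)
    (hc : θ₁ + l / 2 + θ₂ ^ 2 / (2 * l) ≤ c) (hβ : β₁ + β₂ ≤ β)
    (hs : ∀ᵐ x ∂(volume.restrict Ω), ∀ ξ : E3,
      -(⟪z x, tens ξ⟫_ℝ + ⟪fderiv ℝ ψ x ξ, ξ⟫_ℝ) ≤ (θ₁ * ν * W₁ x + β₁) * ‖ξ‖ ^ 2)
    (hr : ∀ᵐ x ∂(volume.restrict Ω),
      ‖U x - w x - ψ x‖ ^ 2 ≤ θ₂ ^ 2 * ν ^ 2 * W₂ x + 2 * l * ν * β₂)
    {p : L2V Ω × L2M Ω} (hpW : p ∈ graphW Ω) :
    -⟪tensL p.1, G⟫_ℝ ≤ c * ν * ‖p.2‖ ^ 2 + β * ‖p.1‖ ^ 2 := by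
  have key := graphW_le (fun p => -⟪tensL p.1, G⟫_ℝ - c * ν * ‖p.2‖ ^ 2
    - β * ‖p.1‖ ^ 2) (form_cont hΩ G _ _) (fun q hq => ?_) hpW
  · linarith
  have hqW := preW_le hq
  obtain ⟨φ, h1, h2, h3⟩ := hq
  have hφ0 : ∀ x ∉ Ω, φ x = 0 := fun x hx =>
    image_eq_zero_of_notMem_tsupport fun hc => hx (h1.supp hc)
  have t1 := int_f1 hΩ h1 hqW h2 hU
  have t2 := int_f1 hΩ h1 hqW h2 hw
  have t3 := smooth_test h1 hψ
  simp only at t1 t2
  rw [ext_int hΩ] at t1 t2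
  have n1 : ‖q.1‖ ^ 2 = ∫ x, NN φ x := norm_test1 h1 h2
  have n2 : ‖q.2‖ ^ 2 = ∫ x, JJ φ x := norm_test2 h1 h3
  have hf0 : ∀ x ∉ Ω, f1 φ x = 0 := fun x hx => by
    refine PiLp.ext fun i => ?_
    simp [f1, hφ0 x hx]
  have t3l : ∫ x, ∑ i, ψ x i * f1 φ x i = ∫ x in Ω, ∑ i, ψ x i * f1 φ x i := by
    refine (setIntegral_eq_integral_of_forall_compl_eq_zero fun x hx => ?_).symm
    rw [hf0 x hx]
    simp
  have t3r : ∫ x, ∑ i, ∑ j, φ x i * φ x j * jac ψ x (i, j)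
      = ∫ x in Ω, ∑ i, ∑ j, φ x i * φ x j * jac ψ x (i, j) := by
    refine (setIntegral_eq_integral_of_forall_compl_eq_zero fun x hx => ?_).symm
    rw [hφ0 x hx]
    simp
  rw [t3l, t3r] at t3
  -- integrability
  have hf1c := f1_cont h1.smooth
  have hf1s := f1_comp (φ := φ) h1.compact
  have iU := int_pair U hf1c hf1s
  have iw := int_pair w hf1c hf1s
  have iψ : Integrable (fun x => ∑ i, ψ x i * f1 φ x i) (volume.restrict Ω) := by
    have hcont : Continuous fun x => ∑ i, ψ x i * f1 φ x i := by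
      refine continuous_finsetSum _ fun i _ => (contDiff_coord hψ i).continuous.mul ?_
      exact (EuclideanSpace.proj (𝕜 := ℝ) i : E3 →L[ℝ] ℝ).continuous.comp hf1c
    refine (hcont.integrable_of_hasCompactSupport ?_).integrableOn
    refine hf1s.mono fun x hx h0 => hx ?_
    simp [h0]
  have iJ : Integrable (fun x => ∑ i, ∑ j, φ x i * φ x j * jac ψ x (i, j)) (volume.restrict Ω) := by
    have hcont : Continuous fun x => ∑ i, ∑ j, φ x i * φ x j * jac ψ x (i, j) := by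
      refine continuous_finsetSum _ fun i _ => continuous_finsetSum _ fun j _ => ?_
      exact ((contDiff_coord h1.smooth i).continuous.mul
        (contDiff_coord h1.smooth j).continuous).mul (cont_jac_coord hψ i j)
    refine (hcont.integrable_of_hasCompactSupport ?_).integrableOn
    refine h1.compact.mono fun x hx h0 => hx ?_
    simp [h0]
  have iz : Integrable (fun x => ⟪z x, tens (φ x)⟫_ℝ) (volume.restrict Ω) := by
    refine (L2.integrable_inner (𝕜 := ℝ) z (tensL q.1)).congr ?_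
    filter_upwards [tensL_coe hΩ hqW, h2] with x a b
    rw [a, b]
  have ez : ⟪tensL q.1, z⟫_ℝ = ∫ x in Ω, ⟪z x, tens (φ x)⟫_ℝ := by
    rw [real_inner_comm, L2.inner_def]
    refine integral_congr_ae ?_
    filter_upwards [tensL_coe hΩ hqW, h2] with x a b
    rw [a, b]
  -- the smooth part
  have eψ : ∀ x, ⟪fderiv ℝ ψ x (φ x), φ x⟫_ℝ = ∑ i, ∑ j, φ x i * φ x j * jac ψ x (i, j) := by
    intro x
    rw [real_inner_comm]
    exact H772R2.NS.Pub.inner_fderiv ψ x (φ x)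
  have b1 : ∫ x in Ω, -(⟪z x, tens (φ x)⟫_ℝ + ⟪fderiv ℝ ψ x (φ x), φ x⟫_ℝ)
      ≤ (0 + θ₁ * ν) * (∫ x, JJ φ x) + β₁ * ∫ x, NN φ x := by
    refine int_le hW₁ h1 le_rfl (by positivity) hβ₁ ?_
    filter_upwards [hs] with x hx
    rw [NN_eq, zero_mul, zero_add]
    exact hx (φ x)
  have e1 : ∫ x in Ω, -(⟪z x, tens (φ x)⟫_ℝ + ⟪fderiv ℝ ψ x (φ x), φ x⟫_ℝ)
      = -⟪tensL q.1, z⟫_ℝ - ∫ x in Ω, ∑ i, ∑ j, φ x i * φ x j * jac ψ x (i, j) := by
    simp_rw [eψ]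
    rw [integral_neg, integral_add iz iJ, ez]
    ring
  -- the rough part
  have b2 : ∫ x in Ω, ∑ i, (U x - w x - ψ x) i * f1 φ x i
      ≤ (l / 2 * ν + θ₂ ^ 2 / (2 * l) * ν) * (∫ x, JJ φ x) + β₂ * ∫ x, NN φ x := by
    refine int_le hW₂ h1 (by positivity) (by positivity) hβ₂ ?_
    filter_upwards [hr] with x hx
    exact rough_pt hν hl (JJ_nonneg φ x) (NN_nonneg φ x) (norm_f1 φ x) hx
  have e2 : ∫ x in Ω, ∑ i, (U x - w x - ψ x) i * f1 φ x i
      = (∫ x in Ω, ∑ i, U x i * f1 φ x i) - (∫ x in Ω, ∑ i, w x i * f1 φ x i)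
        - ∫ x in Ω, ∑ i, ψ x i * f1 φ x i := by
    have iUw : Integrable (fun x => (∑ i, U x i * f1 φ x i) - ∑ i, w x i * f1 φ x i)
        (volume.restrict Ω) := iU.sub iw
    rw [← integral_sub iU iw, ← integral_sub iUw iψ]
    refine integral_congr_ae (Eventually.of_forall fun x => ?_)
    simp only [PiLp.sub_apply, sub_mul, Finset.sum_sub_distrib]
  rw [e2, t1, t2, t3] at b2
  rw [e1] at b1
  rw [n1, n2]
  have hJ0 : 0 ≤ ∫ x, JJ φ x := integral_nonneg (JJ_nonneg φ)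
  have hN0 : 0 ≤ ∫ x, NN φ x := integral_nonneg (NN_nonneg φ)
  have g1 : (θ₁ + l / 2 + θ₂ ^ 2 / (2 * l)) * ν * (∫ x, JJ φ x) ≤ c * ν * ∫ x, JJ φ x := by
    gcongr
  have g2 : (β₁ + β₂) * (∫ x, NN φ x) ≤ β * ∫ x, NN φ x := by gcongr
  nlinarith

end Pool.Agent.R462.HC
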