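import Pool.Agent.R462.HC.Form
import Pool.Agent.H5R2.NL.Cut

/-!
The potentials `1/(4 |x - y|²)` are form bounded, with the bound one.
-/

set_option autoImplicit false

open MeasureTheory Set Filter Topology
open scoped InnerProductSpace ContDiff ENNReal

namespace Pool.Agent.R462.HC

open H772R2.NS

theorem gsq_ofReal {φ : E3 → ℝ} (hφ : ContDiff ℝ ∞ φ) (x : E3) :
    Pool.Agent.H5R2.NL.gsq (fun y => (φ y : ℂ)) x = ‖fderiv ℝ φ x‖ ^ 2 := by
  have h1 : HasFDerivAt φ (fderiv ℝ φ x) x := ((hφ.differentiable (by simp)) x).hasFDerivAt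
  have h2 : HasFDerivAt (fun y => (φ y : ℂ)) (Complex.ofRealCLM.comp (fderiv ℝ φ x)) x :=
    Complex.ofRealCLM.hasFDerivAt.comp x h1
  unfold Pool.Agent.H5R2.NL.gsq
  rw [h2.fderiv, norm_clm_sq]
  refine Finset.sum_congr rfl fun c _ => ?_
  show ‖((fderiv ℝ φ x (EuclideanSpace.single c 1) : ℝ) : ℂ)‖ ^ 2 = _
  rw [Complex.norm_real, Real.norm_eq_abs, sq_abs]

/-- **Hardy's inequality.** -/
theorem hardy_bound (Ω : Set E3) (y : E3) (φ : E3 → ℝ) (hφ : ContDiff ℝ ∞ φ)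
    (hc : HasCompactSupport φ) :
    ∫⁻ x in Ω, ENNReal.ofReal ((4 * ‖x - y‖ ^ 2)⁻¹ * φ x ^ 2)
      ≤ ENNReal.ofReal (∫ x, ‖fderiv ℝ φ x‖ ^ 2) := by
  have hu : ContDiff ℝ 1 fun x => (φ x : ℂ) :=
    (Complex.ofRealCLM.contDiff.comp hφ).of_le (by exact_mod_cast le_top)
  have hcu : HasCompactSupport fun x => (φ x : ℂ) :=
    hc.comp_left (g := fun r : ℝ => (r : ℂ)) (by simp)
  obtain ⟨h1, h2⟩ := Pool.Agent.H5R2.NL.hardy y (fun x => (φ x : ℂ)) hu hcu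
  have e1 : (fun x => (4 * ‖x - y‖ ^ 2)⁻¹ * φ x ^ 2)
      = fun x => 1 / 4 * (‖(φ x : ℂ)‖ ^ 2 / ‖x - y‖ ^ 2) := by
    funext x
    rw [Complex.norm_real, Real.norm_eq_abs, sq_abs, mul_inv]
    ring
  have h3 : Integrable fun x => (4 * ‖x - y‖ ^ 2)⁻¹ * φ x ^ 2 := by
    rw [e1]
    exact h1.const_mul _
  refine (setLIntegral_le_lintegral _ _).trans ?_
  rw [← ofReal_integral_eq_lintegral_ofReal h3 (Eventually.of_forall fun x => by positivity)]
  refine ENNReal.ofReal_le_ofReal ?_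
  rw [e1, integral_const_mul]
  have e2 : ∫ x, Pool.Agent.H5R2.NL.gsq (fun x => (φ x : ℂ)) x = ∫ x, ‖fderiv ℝ φ x‖ ^ 2 :=
    integral_congr_ae (Eventually.of_forall fun x => gsq_ofReal hφ x)
  rw [e2] at h2
  linarith

theorem hardy_meas (y : E3) : Measurable fun x : E3 => (4 * ‖x - y‖ ^ 2)⁻¹ :=
  (((measurable_id.sub_const y).norm.pow_const 2).const_mul 4).inv

theorem hardy_formBdd (Ω : Set H772R2.NS.Pub.R3) (y : H772R2.NS.Pub.R3) :
    FormBdd Ω fun x => (4 * ‖x - y‖ ^ 2)⁻¹ where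
  meas := (hardy_meas y).aemeasurable
  nonneg := fun x => inv_nonneg.2 (mul_nonneg (by norm_num) (sq_nonneg _))
  bound := fun φ h1 h2 _ => hardy_bound (show Set E3 from Ω) y φ h1 h2

end Pool.Agent.R462.HC
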