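import Pool.Agent.R462.HC.Expl

/-!
# Compression and speed near one moving point, with explicit constants, up to the boundary

Scale invariant criteria for Leray-Hopf solutions of the Navier-Stokes equations with viscosity `ν`
in an arbitrary bounded open set `Ω ⊆ ℝ³`, without any regularity of the boundary. At a first
singular time `τ` it is impossible that for almost every `t` near `τ` there is a point `y = y(t)`
(depending on `t` in an arbitrary way) such that in `Ω`
* `-ξ·∇u(x,t) ξ ≤ (κ ν / |x - y|² + b / (τ - t)) |ξ|²` for all `ξ`, with `κ < 1/4`, `b < 3/4`; or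
* `|u(x,t) - (a + A x)| ≤ k ν / |x - y| + K √(ν / (τ - t))` for some rigid motion `a + A x`
  (`a = a(t)`, `A = A(t)` skew symmetric), with `K² < 3 (1 - 2 k)`.
Which of the two bounds holds may depend on time. In general, `u(t)` is allowed to be the sum of a
field with slow compression (of a field in `H¹_{0,σ}(Ω)` and a smooth field) and of a field with a
pointwise bound, `κ ν / |x - y|²` is replaced by form bounded potentials, and `b / (τ - t)` by a
function of time, the integral of which must grow like `(3/4) log (1/(τ - t))`.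
-/

set_option autoImplicit false

open MeasureTheory Set
open scoped InnerProductSpace ENNReal ContDiff

namespace Pool.Agent.Results.MP_fd8964_an.HardyCriterion

open H772R2.NS.Pub Pool.Agent.W795.TQ Pool.Agent.R462.HC

/-- Let `u` be a Leray-Hopf solution on `[0,T]` with admissible data in a bounded open set `Ω`, with
the gradient `G`. Then either `u` is a strong solution on `[0,T]`, or there is a first singular time
`τ ∈ (0,T]` with the following properties.
(1) For `0 ≤ c < 1` and `0 ≤ s < τ` there is a number `M` such that, whenever `β ≥ 0` is locally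
integrable on `[s,τ)` and `u(t)` is `c`-tame with the rate `β(t)` for almost every `t ∈ (s,τ)`, one
has `∫_s^t β ≥ (3/4) log (1/(τ - t)) - M` for `t < τ` arbitrarily close to `τ`.
(2) If `0 ≤ κ < 1/4`, `0 ≤ b < 3/4`, `k, K ≥ 0`, `K² < 3 (1 - 2 k)`, it is impossible that for
almost every `t` in an interval `(t₁,τ)` the compression is at most `κ ν / |x - y|² + b / (τ - t)`,
for some `y`, or the speed in some rigidly moving frame is at most
`k ν / |x - y| + K √(ν / (τ - t))`, for some `y`. -/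
theorem result :
    ∀ (Ω : Set R3), IsOpen Ω → Bornology.IsBounded Ω → ∀ (ν T : ℝ), 0 < ν → 0 < T →
    ∀ (F F' : ℝ → L2 Ω Mat), IsH1 T F F' →
    ∀ (u : ℝ → L2 Ω R3) (G : ℝ → L2 Ω Mat), IsLerayHopf Ω ν T F u G →
    ∀ z0 : L2 Ω Mat, (u 0, z0) ∈ H1graph Ω →
    (∃ g : L2 Ω R3, ∀ φ, IsTest Ω φ → rhs ν (u 0) z0 (F 0) φ = ∫ x in Ω, ⟪g.fn x, φ x⟫_ℝ) →
    (∃ u' G1 G', IsStrong Ω ν T F u u' G1 G') ∨
    ∃ τ ∈ Ioc 0 T, (∀ t ∈ Ioo 0 τ, ∃ u' G1 G', IsStrong Ω ν t F u u' G1 G') ∧
      (∀ c : ℝ, 0 ≤ c → c < 1 → ∀ s ∈ Ico 0 τ, ∃ M : ℝ, ∀ β : ℝ → ℝ,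
        (∀ t, 0 ≤ β t) → (∀ t ∈ Ioo s τ, IntervalIntegrable β volume s t) →
        (∀ᵐ t ∂(volume.restrict (Ioo s τ)), Tame ν c (β t) (u t)) →
        ∀ t0 < τ, ∃ t ∈ Ioo t0 τ, s < t ∧
          3 / 4 * Real.log (1 / (τ - t)) - M ≤ ∫ r in s..t, β r) ∧
      ∀ κ b k K t1 : ℝ, 0 ≤ κ → κ < 1 / 4 → 0 ≤ b → b < 3 / 4 → 0 ≤ k → 0 ≤ K →
        K ^ 2 < 3 * (1 - 2 * k) → t1 < τ →
        ¬ ∀ᵐ t ∂(volume.restrict (Ioo t1 τ)),
          SlowStrain (κ * ν) (b / (τ - t)) (G t) ∨
          SlowVelocity (k * ν) (K * Real.sqrt (ν / (τ - t))) (u t) := by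
  intro Ω hΩ hb ν T hν hT F F' hF u G L z0 h0 hg
  rcases main Ω hΩ hb ν T hν hT F F' hF u G L z0 h0 hg with h1 | ⟨τ, hτ, h1, h2⟩
  · exact Or.inl h1
  · refine Or.inr ⟨τ, hτ, h1, h2, ?_⟩
    intro κ b k K t1 hκ hκ2 hb hb2 hk hK hK2 ht1 hyp
    refine explicit hν hτ.1 ?_ h2 hκ hκ2 hb hb2 hk hK hK2 ht1 hyp
    exact ae_mono (Measure.restrict_mono (Ioo_subset_Ioc_self.trans
      (Ioc_subset_Ioc_right hτ.2)) le_rfl) L.grad

end Pool.Agent.Results.MP_fd8964_an.HardyCriterion
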